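import Pool.Agent.V5helper41.PD.Stm
import Pool.Agent.Results.MP_f61260_nt.ConjugateProducts

set_option autoImplicit false

namespace V5helper38.PD

open IntermediateField Polynomial
open Pool.Agent.H58P (Qb)
open Pool.Agent.W237.RK
open V5helper41.PD
open Pool.Agent.Results.MP_f61260_nt.ConjugateProducts

theorem smooth_eq : smoothRootField ⊥ ⊥ ∅ = Kmu := by
  unfold smoothRootField Kmu
  rw [bot_sup_eq, Set.union_eq_self_of_subset_right]
  rintro y ⟨n, ⟨hn, -⟩, g, hg, h⟩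
  rw [Subgroup.mem_bot] at hg
  refine ⟨n, hn, ?_⟩
  rw [h, hg]
  rfl

theorem t_ADN : S_ADN := by
  obtain ⟨A, hA, h, -⟩ := result ⊥ inferInstance ⊥ (Subgroup.fg_iff _ |>.2 ⟨∅, by simp, Set.finite_empty⟩) ∅ (by simp)
  refine ⟨A, hA, fun α hα hT => ?_⟩
  have hnd : ¬ InDivisionGroup ⊥ α := by
    rintro ⟨n, hn, g, hg, h1⟩
    rw [Subgroup.mem_bot] at hg
    apply hT
    refine ⟨n, hn, ?_⟩
    rw [h1, hg]
    rfl
  have h1 := h ⊥ (by
    intro g hg
    rw [Subgroup.mem_bot] at hg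
    rw [hg]
    exact one_mem _) α hα 1 (fun _ => AlgEquiv.refl) (fun _ => 1) (by simpa using hnd) 1
    ⟨1, one_pos, 1, one_mem _, by simp⟩
  rw [smooth_eq] at h1
  simpa [Pool.Agent.Results.MP_f61260_nt.ConjugateProducts.degree] using h1

end V5helper38.PD
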