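import Pool.Agent.V5helper41.PD.Stm
import Pool.Agent.Y730.RD.Final

set_option autoImplicit false

namespace V5helper38.PD

open IntermediateField Polynomial
open Pool.Agent.H58P (Qb)
open Pool.Agent.W237.RK
open V5helper41.PD
open Pool.Agent.Y730.RD

theorem log_bound {p : ℕ} (hp : 400 < p) : 40 * (Real.log p / p) ≤ Real.log 2 := by
  have hp' : (400 : ℝ) ≤ p := by exact_mod_cast hp.le
  have he : Real.exp 1 ≤ 400 := by
    have := Real.exp_one_lt_d9
    linarith
  have h1 : Real.log p / p ≤ Real.log 400 / 400 :=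
    Real.log_div_self_antitoneOn (show Real.exp 1 ≤ 400 from he) (show Real.exp 1 ≤ (p : ℝ) from he.trans hp') hp'
  have h2 : Real.log 400 ≤ 10 * Real.log 2 := by
    have h3 : (10 : ℝ) * Real.log 2 = Real.log (2 ^ 10) := by
      rw [Real.log_pow]
      norm_num
    rw [h3]
    exact Real.log_le_log (by norm_num) (by norm_num)
  linarith

theorem t_FIN : V5helper41.PD.S_FIN := by
  intro a p ρ α ha2 ha hp hp400 hρ hα hα0 hnd
  by_contra hlt
  rw [not_le] at hlt
  apply hnd
  refine small_points ha ha2 ?_ ρ α hρ hα hα0 hlt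
  have hsub : ∀ q ∈ wiefPrimes a p, q = p := by
    intro q hq
    obtain ⟨h1, h2, -, -⟩ := (mem_wiefPrimes hp.pos).1 hq
    exact (Nat.prime_dvd_prime_iff_eq h1 hp).1 h2
  refine ⟨hp.pos, fun q hq => ?_, ?_⟩
  · rw [hsub q hq]
    refine ⟨by omega, fun h => ?_⟩
    have h1 := Nat.le_of_dvd hp.pos h
    nlinarith
  · have h1 : ∑ q ∈ wiefPrimes a p, Real.log q / q ≤ ∑ q ∈ {p}, Real.log q / q := by
      refine Finset.sum_le_sum_of_subset_of_nonneg ?_ ?_
      · intro q hq
        rw [Finset.mem_singleton]
        exact hsub q hq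
      · intro q hq _
        rw [Finset.mem_singleton] at hq
        rw [hq]
        have : (1 : ℝ) ≤ p := by exact_mod_cast hp.one_lt.le
        exact div_nonneg (Real.log_nonneg this) (by linarith)
    rw [Finset.sum_singleton] at h1
    have h2 := log_bound hp400
    have h3 : Real.log 2 ≤ Real.log a := Real.log_le_log (by norm_num) (by exact_mod_cast ha2)
    linarith

end V5helper38.PD
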