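import Pool.Agent.V5helper41.PD.Stm

set_option autoImplicit false

namespace V5helper38.PD

open IntermediateField Polynomial
open Pool.Agent.H58P (Qb)
open Pool.Agent.W237.RK
open V5helper41.PD

theorem t_REC (_h : S_GAL) : S_REC := by
  intro α hα hP h0
  have hint : IsIntegral ℚ α := Pool.Agent.H58P.qb_isIntegral α
  have hcl : IsAlgClosure ℚ Qb := ⟨inferInstance, ⟨fun x => (Pool.Agent.H58P.qb_isIntegral x).isAlgebraic⟩⟩
  have hn : Normal ℚ Qb := IsAlgClosure.normal ℚ Qb
  obtain ⟨σ, hinv⟩ := minpoly.exists_algEquiv_of_root (K := ℚ) (L := Qb) hint.isAlgebraic h0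
  have hσ : σ α = α⁻¹ := by
    rw [map_inv₀] at hinv
    exact inv_eq_iff_eq_inv.1 hinv
  have hβ : σ (α + α⁻¹) = α + α⁻¹ := by rw [map_add, hσ, hinv, add_comm]
  have hfix : ∀ x ∈ ℚ⟮α + α⁻¹⟯, σ x = x := by
    intro x hx
    induction hx using IntermediateField.adjoin_induction with
    | mem x hx =>
      rw [Set.mem_singleton_iff] at hx
      rw [hx, hβ]
    | algebraMap x => exact σ.commutes x
    | add x y _ _ h1 h2 => rw [map_add, h1, h2]
    | inv x _ h1 => rw [map_inv₀, h1]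
    | mul x y _ _ h1 h2 => rw [map_mul, h1, h2]
  have hle : ℚ⟮α + α⁻¹⟯ ≤ ℚ⟮α⟯ := by
    rw [IntermediateField.adjoin_simple_le_iff]
    exact add_mem (mem_adjoin_simple_self ℚ α) (inv_mem (mem_adjoin_simple_self ℚ α))
  rcases hP _ hle with h1 | h1
  · right
    have h2 : α + α⁻¹ ∈ (⊥ : IntermediateField ℚ Qb) := by
      rw [← h1]
      exact mem_adjoin_simple_self ℚ _
    obtain ⟨b, hb⟩ := IntermediateField.mem_bot.1 h2
    have hroot : aeval α (X ^ 2 - C b * X + 1 : ℚ[X]) = 0 := by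
      simp only [map_add, map_sub, map_mul, map_pow, aeval_X, aeval_C, map_one, hb]
      field_simp
      ring
    have hmon : (X ^ 2 - C b * X + 1 : ℚ[X]).Monic := by monicity!
    have hdeg : (X ^ 2 - C b * X + 1 : ℚ[X]).natDegree = 2 := by compute_degree!
    have h3 := natDegree_le_natDegree (minpoly.min ℚ α hmon hroot)
    rwa [hdeg] at h3
  · left
    have h2 : α ∈ ℚ⟮α + α⁻¹⟯ := by
      rw [h1]
      exact mem_adjoin_simple_self ℚ α
    have h3 := hfix α h2
    rw [hσ] at h3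
    refine ⟨2, two_pos, ?_⟩
    rw [pow_two]
    nth_rewrite 1 [← h3]
    exact inv_mul_cancel₀ hα

end V5helper38.PD
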